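import Mathlib
import Pool.Agent.H32.Ach

open Set Filter Topology symmDiff

namespace Pool.Agent.Results.MP_dc2775_an.ZeroOne

open Pool.Agent.H32.Ach

/-- ideals on `ℕ` containing all finite sets -/
def IsIdeal (I : Set (Set ℕ)) : Prop :=
  (∀ A ∈ I, ∀ B ∈ I, A ∪ B ∈ I) ∧ (∀ A ∈ I, ∀ B, B ⊆ A → B ∈ I) ∧ univ ∉ I ∧
    ∀ A : Set ℕ, A.Finite → A ∈ I

/-- the subseries over `B`, in the original order, converges to `y` -/
def SumTo (x : ℕ → ℝ) (B : Set ℕ) (y : ℝ) : Prop :=
  Tendsto (fun N => ∑ n ∈ Finset.range N, B.indicator x n) atTop (𝓝 y)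

/-- sums of the convergent subseries over members of `I` -/
def Ach (x : ℕ → ℝ) (I : Set (Set ℕ)) : Set ℝ := {y | ∃ B ∈ I, SumTo x B y}

lemma ach_eq {x : ℕ → ℝ} (hs : Summable x) (I : Set (Set ℕ)) : Ach x I = sg x '' I := by
  ext y
  refine exists_congr fun B => and_congr_right fun _ => ?_
  have := (hs.indicator B).hasSum.tendsto_sum_nat
  exact ⟨fun h => tendsto_nhds_unique this h, fun h => h ▸ this⟩

lemma abs_case {x : ℕ → ℝ} (hs : Summable x) {I : Set (Set ℕ)} (hI : Tail I) {V : Set ℝ}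
    (hV : IsOpen V) {B0 : Set ℕ} (h0 : sg x B0 ∈ V) (h : M (sg x '' I ∩ V) (range (sg x))) :
    M (sg x '' I) (range (sg x)) := by
  let N : Set ℕ := {n | x n < 0}
  let z : ℕ → ℝ := fun n => |x n|
  have hz : Summable z := hs.abs
  have e : ∀ B, sg z (B ∆ N) + -sg z N = sg x B := by
    intro B
    unfold sg
    rw [← sub_eq_add_neg, ← (hz.indicator _).tsum_sub (hz.indicator _)]
    refine tsum_congr fun n => ?_
    by_cases h1 : n ∈ B <;> by_cases h2 : x n < 0 <;>
      simp [indicator, mem_symmDiff, h1, h2, N, z, abs_of_neg, abs_of_nonneg, not_lt.1]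
  have e' : ∀ B, sg z B + -sg z N = sg x (B ∆ N) := fun B => by
    rw [← e, symmDiff_symmDiff_cancel_right]
  have r : {y | y + -sg z N ∈ range (sg x)} = range (sg z) := by
    ext y
    constructor
    · rintro ⟨B, hB⟩; exact ⟨B ∆ N, by linarith [e B]⟩
    · rintro ⟨B, rfl⟩; exact ⟨_, (e' B).symm⟩
  have r' : {y | y + sg z N ∈ range (sg z)} = range (sg x) := by
    ext y
    constructor
    · rintro ⟨B, hB⟩; exact ⟨B ∆ N, by linarith [e' B]⟩
    · rintro ⟨B, rfl⟩; exact ⟨B ∆ N, by linarith [e B]⟩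
  have h1 := h.tr (-sg z N)
  rw [r] at h1
  have h2 := core hz (fun n => abs_nonneg _) (I := {B | B ∆ N ∈ I})
    (fun B hB B' L hL k => hI _ hB _ L hL (by
      ext n
      have := Set.ext_iff.1 k n
      simp only [Set.mem_sdiff, mem_symmDiff] at this ⊢
      tauto))
    (V := {y | y + -sg z N ∈ V}) (hV.preimage (continuous_add_const _)) (B0 := B0 ∆ N)
    (by show _ ∈ V; rwa [e]) (h1.mono (by
      rintro _ ⟨⟨B, hB, rfl⟩, hv⟩
      exact ⟨⟨_, hB, (e' B).symm⟩, hv⟩))
  have h3 := h2.tr (sg z N)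
  rw [r'] at h3
  refine h3.mono ?_
  rintro _ ⟨B, hB, rfl⟩
  exact ⟨B ∆ N, by show _ ∈ I; rwa [symmDiff_symmDiff_cancel_right], by linarith [e B]⟩

noncomputable def DD (x : ℕ → ℝ) : Set ℝ := range fun p : Finset ℕ × Finset ℕ =>
  ∑ n ∈ p.1, if n ∈ p.2 then max (-x n) 0 else max (x n) 0

lemma up {x : ℕ → ℝ} {s : ℝ} (h : SumTo x univ s) (hn : ¬ Summable x) {B : Set ℕ} {y p q : ℝ}
    (hB : SumTo x B y) (hpq : p < q) (hy : y < q) : ∃ (B' L : Set ℕ), L.Finite ∧ B \ L = B' \ L ∧
      ∃ u ∈ DD x, SumTo x B' (y + u) ∧ y + u ∈ Ioo p q := by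
  classical
  let a : ℕ → ℝ := fun n => if n ∈ B then max (-x n) 0 else max (x n) 0
  have a0 : ∀ n, 0 ≤ a n := fun n => by simp only [a]; split_ifs <;> exact le_max_right _ _
  have a1 : ∀ n, B.indicator x n + a n = max (x n) 0 := fun n => by
    by_cases k : n ∈ B
    · simp only [a, indicator, if_pos k]
      rcases le_total (x n) 0 with e | e
      · rw [max_eq_left (neg_nonneg.2 e), max_eq_right e]; ring
      · rw [max_eq_right (neg_nonpos.2 e), max_eq_left e]; ring
    · simp [a, indicator, k]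
  simp only [SumTo, indicator_univ] at h
  have na : ¬ Summable a := fun k => by
    have h1 := hB.add k.hasSum.tendsto_sum_nat
    simp only [← Finset.sum_add_distrib, a1] at h1
    have h2 := h1.sub h
    simp only [← Finset.sum_sub_distrib] at h2
    have s1 := ((hasSum_iff_tendsto_nat_of_nonneg (fun n => le_max_right (x n) 0) _).2 h1).summable
    have s2 := ((hasSum_iff_tendsto_nat_of_nonneg
      (fun n => sub_nonneg.2 (le_max_left (x n) 0)) _).2 h2).summable
    exact hn (by simpa using s1.sub s2)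
  have x0 : Tendsto (fun n => |x n|) atTop (𝓝 0) := by
    have := ((h.comp (tendsto_add_atTop_nat 1)).sub h).abs
    simpa [Finset.sum_range_succ] using this
  have hη : 0 < q - max p y := sub_pos.2 (max_lt hpq hy)
  obtain ⟨N, hN⟩ := eventually_atTop.1 (x0.eventually (gt_mem_nhds hη))
  have a2 : ∀ n, a (N + n) < q - max p y := fun n => by
    refine lt_of_le_of_lt ?_ (hN (N + n) (by omega))
    simp only [a]
    split_ifs
    · exact max_le (neg_le_abs _) (abs_nonneg _)
    · exact max_le (le_abs_self _) (abs_nonneg _)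
  have na' : ¬ Summable fun n => a (N + n) := fun k =>
    na ((summable_nat_add_iff N).1 (by simpa only [add_comm] using k))
  have ex : ∃ k, max p y - y < ∑ i ∈ Finset.range k, a (N + i) :=
    (((not_summable_iff_tendsto_nat_atTop_of_nonneg fun n => a0 _).1 na').eventually
      (eventually_gt_atTop _)).exists
  obtain ⟨k, k1, k2⟩ : ∃ k, max p y - y < ∑ i ∈ Finset.range k, a (N + i) ∧
      ∑ i ∈ Finset.range k, a (N + i) < q - y := by
    have h1 := Nat.find_spec ex
    refine ⟨_, h1, ?_⟩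
    rcases h2 : Nat.find ex with _ | j
    · simpa using hy
    · have h3 := Nat.find_min ex (m := j) (by omega)
      rw [Finset.sum_range_succ]
      linarith [a2 j]
  have e : ∑ n ∈ Finset.Ico N (N + k), a n = ∑ i ∈ Finset.range k, a (N + i) := by
    rw [Finset.sum_Ico_eq_sum_range, add_tsub_cancel_left]
  set F := Finset.Ico N (N + k) with hF
  refine ⟨{n | if n ∈ F then 0 < x n else n ∈ B}, F, F.finite_toSet, ?_, ∑ n ∈ F, a n,
    ⟨(F, F.filter (· ∈ B)), Finset.sum_congr rfl fun n hn => by simp [a, hn]⟩, ?_,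
    by linarith [le_max_left p y], by linarith⟩
  · ext n
    by_cases k : n ∈ F <;> simp [k]
  · refine (hB.add_const _).congr' ?_
    filter_upwards [eventually_ge_atTop (N + k)] with m hm
    have sub : F ⊆ Finset.range m := fun n hn => by
      rw [hF, Finset.mem_Ico] at hn; rw [Finset.mem_range]; omega
    rw [← Finset.inter_eq_right.2 sub, ← Finset.sum_ite_mem, ← Finset.sum_add_distrib,
      Finset.inter_eq_right.2 sub]
    refine Finset.sum_congr rfl fun n _ => ?_
    by_cases k : n ∈ F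
    · rw [if_pos k, a1]
      by_cases k' : 0 < x n
      · simp [indicator, k, k', k'.le]
      · simp [indicator, k, k', not_lt.1 k']
    · simp [indicator, k]

lemma neg {x : ℕ → ℝ} {B : Set ℕ} {y : ℝ} (h : SumTo x B y) : SumTo (fun n => -x n) B (-y) := by
  have := h.neg
  simpa only [SumTo, ← Finset.sum_neg_distrib, indicator_neg] using this

lemma move {x : ℕ → ℝ} {s : ℝ} (h : SumTo x univ s) (hn : ¬ Summable x) {B : Set ℕ} {y p q : ℝ}
    (hB : SumTo x B y) (hpq : p < q) : ∃ (B' L : Set ℕ), L.Finite ∧ B \ L = B' \ L ∧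
      ∃ u ∈ DD x ∪ Neg.neg '' DD fun n => -x n, SumTo x B' (y + u) ∧ y + u ∈ Ioo p q := by
  by_cases hy : y < q
  · obtain ⟨B', L, h1, h2, u, h3, h4⟩ := up h hn hB hpq hy
    exact ⟨B', L, h1, h2, u, Or.inl h3, h4⟩
  · obtain ⟨B', L, h1, h2, u, h3, h4, h5⟩ := up (neg h) (fun k => hn (by simpa using k.neg))
      (neg hB) (neg_lt_neg hpq) (by linarith)
    refine ⟨B', L, h1, h2, -u, Or.inr ⟨u, h3, rfl⟩, ?_, by linarith [h5.2], by linarith [h5.1]⟩
    have := neg h4
    simp only [neg_neg] at this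
    convert this using 1; ring

lemma key {x : ℕ → ℝ} {s : ℝ} (h : SumTo x univ s) {I : Set (Set ℕ)} (hI : Tail I) {V : Set ℝ}
    (hV : IsOpen V) (h0 : (V ∩ Ach x univ).Nonempty) (hm : M (Ach x I ∩ V) (Ach x univ)) :
    M (Ach x I) (Ach x univ) := by
  by_cases hs : Summable x
  · simp only [ach_eq hs, image_univ] at *
    obtain ⟨_, h1, B, rfl⟩ := h0
    exact abs_case hs hI hV h1 hm
  · obtain ⟨v, hv, -⟩ := h0
    obtain ⟨p, q, h1, h2⟩ := mem_nhds_iff_exists_Ioo_subset.1 (hV.mem_nhds hv)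
    have hd : Dense (Ach x univ) := dense_of_exists_between fun a b hab => by
      obtain ⟨B', -, -, -, u, -, h4, h5⟩ := move h hs h hab
      exact ⟨_, ⟨B', trivial, h4⟩, h5⟩
    refine hm.spread (fun y ⟨B, _, hB⟩ => ⟨B, trivial, hB⟩)
      ((countable_range _).union ((countable_range _).image Neg.neg) :
        (DD x ∪ Neg.neg '' DD fun n => -x n).Countable) (by simp [hd.closure_eq]) ?_
    rintro y ⟨B, b1, b2⟩
    obtain ⟨B', L, l1, l2, u, u1, u2, u3⟩ := move h hs b2 (h1.1.trans h1.2)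
    exact ⟨u, u1, ⟨B', hI B b1 B' L l1 l2, u2⟩, h2 u3⟩

/-- An ideal achievement set with the Baire property is meagre or comeagre. -/
theorem result (I : Set (Set ℕ)) (hI : IsIdeal I) (x : ℕ → ℝ) (hx : ∃ s, SumTo x univ s)
    (hb : BaireMeasurableSet {y : Ach x univ | y.1 ∈ Ach x I}) :
    IsMeagre {y : Ach x univ | y.1 ∈ Ach x I} ∨ IsMeagre {y : Ach x univ | y.1 ∉ Ach x I} := by
  obtain ⟨s, hx⟩ := hx
  have hT : Tail I := fun B hB B' L hL e => hI.2.1 _ (hI.1 B hB L (hI.2.2.2 L hL)) _ fun n hn => by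
    by_cases k : n ∈ L
    · exact Or.inr k
    · exact Or.inl (e.symm.subset ⟨hn, k⟩).1
  obtain ⟨U, hU, e⟩ := hb.residualEq_isOpen
  by_cases hd : Dense U
  · right
    show _ ∈ residual _
    filter_upwards [e, residual_of_dense_open hU hd] with y h1 h2
    exact fun k => k (h1.mpr h2)
  · left
    obtain ⟨y, hy⟩ : ∃ y, y ∉ closure U := not_forall.1 hd
    obtain ⟨V, v1, v2⟩ := isOpen_induced_iff.1 (isClosed_closure (s := U)).isOpen_compl
    refine key hx hT v1 ⟨y.1, v2.symm.subset hy, y.2⟩ ?_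
    show _ ∈ residual _
    filter_upwards [e] with z h1 k
    exact v2.subset k.2 (subset_closure (h1.mp k.1))

end Pool.Agent.Results.MP_dc2775_an.ZeroOne
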